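import Mathlib
import Pool.Agent.V1129.Boom3

set_option autoImplicit false

/-!
There is an infinite countable group whose only boomerang subgroups are the trivial subgroup and
the whole group: the commutator subgroup of the group of order automorphisms of `ℚ` generated by
piecewise linear bumps.
-/

namespace Pool.Agent.Results.MP_80afb3_al.BoomerangSimple

open Pool.Agent.V1129.Boom

/-- The index set of the bumps. -/
abbrev P : Type := {p : ℚ × ℚ // p.1 < p.2}

/-- The bumps. -/
def gen (p : P) : ℚ ≃o ℚ := bump p.1.1 p.1.2 p.2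

/-- The group generated by all bumps. -/
def G₀ : Subgroup (ℚ ≃o ℚ) := Subgroup.closure (Set.range gen)

theorem gen_mem (p : P) : gen p ∈ G₀ := Subgroup.subset_closure ⟨p, rfl⟩

theorem flex_G₀ : Flex G₀ ℚ where
  mono := fun g x y h => (g : ℚ ≃o ℚ).strictMono h
  faithful := fun g hg => by
    apply Subtype.ext
    apply RelIso.ext
    intro x
    exact hg x
  push := by
    intro a u v b hau huv hvb
    obtain ⟨n, hn⟩ := bump_pow_push a b ((hau.trans huv).trans hvb) u v hau hvb
    have hab : a < b := (hau.trans huv).trans hvb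
    let β : G₀ := ⟨gen ⟨(a, b), hab⟩, gen_mem _⟩
    refine ⟨β ^ n, pow_mem ?_ n, ?_⟩
    · intro x hx
      exact bump_fix a b hab x hx
    · have : (β ^ n) • u = ((bump a b hab) ^ n) u := by
        change ((β ^ n : G₀) : ℚ ≃o ℚ) u = _
        rw [Subgroup.coe_pow]
        rfl
      rw [this]
      exact hn

theorem bdd_G₀ (g : G₀) : ∃ s t : ℚ, s < t ∧ g ∈ R G₀ s t := by
  have key : ∀ f : ℚ ≃o ℚ, f ∈ G₀ → ∃ s t : ℚ, s < t ∧ f ∈ R (ℚ ≃o ℚ) s t := by
    intro f hf
    induction hf using Subgroup.closure_induction with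
    | mem x hx =>
      obtain ⟨p, rfl⟩ := hx
      exact ⟨p.1.1, p.1.2, p.2, fun x hx => bump_fix _ _ p.2 x hx⟩
    | one => exact ⟨0, 1, one_pos, one_mem _⟩
    | mul x y _ _ hx hy =>
      obtain ⟨s, t, hst, h1⟩ := hx
      obtain ⟨s', t', hst', h2⟩ := hy
      exact ⟨min s s', max t t', lt_of_le_of_lt (min_le_left _ _) (lt_of_lt_of_le hst
        (le_max_left _ _)), mul_mem (R_mono (min_le_left _ _) (le_max_left _ _) h1)
        (R_mono (min_le_right _ _) (le_max_right _ _) h2)⟩
    | inv x _ hx =>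
      obtain ⟨s, t, hst, h1⟩ := hx
      exact ⟨s, t, hst, inv_mem h1⟩
  obtain ⟨s, t, hst, h⟩ := key g g.2
  exact ⟨s, t, hst, fun x hx => h x hx⟩

instance : Countable G₀ := by
  have h1 : (FreeGroup.lift gen).range = G₀ := by
    rw [FreeGroup.range_lift_eq_closure, G₀]
  have h2 : Countable (FreeGroup P) := by
    unfold FreeGroup
    infer_instance
  have h3 : Countable (FreeGroup.lift gen).range :=
    (MonoidHom.rangeRestrict_surjective (FreeGroup.lift gen)).countable
  rw [h1] at h3
  exact h3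

instance : Infinite (commutator G₀) := by
  have hF := flex_commutator flex_G₀
  obtain ⟨γ, -, hγ⟩ := hF.push 0 1 2 3 (by norm_num) (by norm_num) (by norm_num)
  have hinj : Function.Injective (fun n : ℕ => γ ^ n) := by
    have hmono : StrictMono (fun n : ℕ => (γ ^ n) • (1 : ℚ)) := by
      apply strictMono_nat_of_lt_succ
      intro n
      change (γ ^ n) • (1 : ℚ) < (γ ^ (n + 1)) • (1 : ℚ)
      rw [pow_succ, mul_smul]
      exact hF.mono _ _ _ (lt_trans (by norm_num) hγ)
    intro m n hmn
    apply hmono.injective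
    have : γ ^ m = γ ^ n := hmn
    change (γ ^ m) • (1 : ℚ) = (γ ^ n) • (1 : ℚ)
    rw [this]
  exact Infinite.of_injective _ hinj

/-- There is an infinite countable boomerang-simple group. -/
theorem result : ∃ (Γ : Type) (_ : Group Γ), Infinite Γ ∧ Countable Γ ∧
    ∀ Δ : Subgroup Γ, IsBoomerang Δ → Δ = ⊥ ∨ Δ = ⊤ := by
  refine ⟨commutator G₀, inferInstance, inferInstance, inferInstance, ?_⟩
  intro Δ hΔ
  exact boomerang_simple flex_G₀ bdd_G₀ Δ (wb_of_isBoomerang hΔ)

end Pool.Agent.Results.MP_80afb3_al.BoomerangSimple
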